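import Pool.Agent.V11120.MTh.Max

/-!
# A maximal thrackle whose graph is a perfect matching with nine edges
-/

set_option autoImplicit false

namespace Pool.Agent.Results.MP_7161a7_co.MatchingThrackle

open TH482.HT Pool.Agent.V11120.MTh

theorem match9 : ∀ v : Fin 18, G9.Adj v (par9 v) ∧ ∀ w, G9.Adj v w → w = par9 v := by
  decide +kernel

theorem edges9 : G9.edgeSet.ncard = 9 := by
  classical
  have h1 : G9.edgeSet = Set.range (fun i : Fin 9 =>
      (s((⟨2 * i.1, by omega⟩ : Fin 18), ⟨2 * i.1 + 1, by omega⟩) : Sym2 (Fin 18))) := by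
    ext e
    induction e with | _ u v
    rw [SimpleGraph.mem_edgeSet, Set.mem_range]
    constructor
    · rintro ⟨h1, h2⟩
      refine ⟨⟨u.1 / 2, by omega⟩, ?_⟩
      rw [Sym2.eq_iff]
      simp only [Fin.ext_iff]
      have h3 : u.1 ≠ v.1 := fun h => h1 (Fin.ext h)
      omega
    · rintro ⟨i, hi⟩
      rw [Sym2.eq_iff] at hi
      simp only [Fin.ext_iff] at hi
      refine ⟨fun h => ?_, ?_⟩
      · rw [Fin.ext_iff] at h
        omega
      · omega
  rw [h1, Set.ncard_eq_toFinset_card', Set.toFinset_range, Finset.card_image_of_injective,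
    Finset.card_univ, Fintype.card_fin]
  intro i j hij
  rw [Sym2.eq_iff] at hij
  simp only [Fin.ext_iff] at hij
  exact Fin.ext (by omega)

/-- **There is a maximal topological thrackle whose graph is a perfect matching with nine
edges.** -/
theorem result : ∃ (G : SimpleGraph (Fin 18)) (𝒟 : Drawing G),
    (∀ v, ∃! w, G.Adj v w) ∧ G.edgeSet.ncard = 9 ∧ IsMaximalThrackle 𝒟 :=
  ⟨G9, D9, fun v => ⟨par9 v, (match9 v).1, (match9 v).2⟩, edges9, plane9, thrackle9, maximal9⟩

end Pool.Agent.Results.MP_7161a7_co.MatchingThrackle
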